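import Pool.Agent.D0H98.BC.Final

/-!
# Approximating densities of absolutely continuous Bernoulli convolutions (Q2)

If the Bernoulli convolution `ν_β`, `1 < β < 2`, is absolutely continuous, then `f_n(x)` converges to its density
`h_β(x)` for Lebesgue almost every `x`.

Paper proof: helper31; formalisation: helper98. Idea: `f_n = T^n f_0` with `T g (y) = (β/2) (g (β y) + g (β y - 1))`, and
`T^n g (x)` is an average of `g` for the zoom of the (finite level) Bernoulli convolution at `x`. At a Lebesgue point
`x` of the density with finite maximal function, `T^n (u * ν) (x) → h(x) ∫ u`, so that the claim holds for every test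
function whose Fourier transform vanishes near the zeros `ζ` of the Fourier transform of `ν`. Narrow bumps in frequency
space at `ζ` contribute in the limit at most a multiple of `|∏_{i<k} (1 + e(β^i ζ)) / 2|`, for every `k`, and this product
tends to `0`: otherwise `β^i ζ` tends to the integers fast enough to force `2 β^i ζ` to be (another) zero, hence a power of `β` to be rational,
then an integer, and finally `β` to be an integer.
-/

set_option autoImplicit false

open MeasureTheory Filter Topology Set
open scoped ENNReal

namespace Pool.Agent.Results.MP_ddcbd8_an.AbsolutelyContinuousDensities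

/-- The fair coin: the uniform probability measure on `{false, true}`. -/
noncomputable def coin : Measure Bool :=
  (2⁻¹ : ℝ≥0∞) • Measure.dirac false + (2⁻¹ : ℝ≥0∞) • Measure.dirac true

/-- The digit `0` or `1`. -/
def dig (b : Bool) : ℝ := if b then 1 else 0

/-- `∑_{k ≥ 1} a_k β^(-k)` (the digits are indexed from `0` here). -/
noncomputable def expansion (β : ℝ) (a : ℕ → Bool) : ℝ := ∑' k : ℕ, dig (a k) * (β⁻¹) ^ (k + 1)

/-- The Bernoulli convolution: the law of `∑_{k ≥ 1} a_k β^(-k)` with `a_k` independent and
uniform on `{0, 1}`. -/
noncomputable def bernoulliConv (β : ℝ) : Measure ℝ :=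
  (Measure.infinitePi (fun _ : ℕ => coin)).map (expansion β)

/-- The densities `f_n` on `I_β = [0, 1/(β-1)]`: `f_0 = (β - 1) 1_{I_β}` and
`f_{n+1}(x) = (β/2) (f_n(β x) + f_n(β x - 1))` for `x ∈ I_β`, `f_{n+1}(x) = 0` for the other `x`. -/
noncomputable def f (β : ℝ) : ℕ → ℝ → ℝ
  | 0 => (Icc 0 (1 / (β - 1))).indicator (fun _ => β - 1)
  | n + 1 => (Icc 0 (1 / (β - 1))).indicator (fun x => β / 2 * (f β n (β * x) + f β n (β * x - 1)))

lemma f_eq {β : ℝ} (hβ : 1 < β) (n : ℕ) : f β n =
    Pool.Agent.D0H98.BC.It β ((Icc 0 (1 / (β - 1))).indicator (fun _ => β - 1)) n := by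
  have hβ1 : 0 < β - 1 := by linarith
  have hc : 0 < 1 / (β - 1) := by positivity
  have hcc : β * (1 / (β - 1)) - 1 = 1 / (β - 1) := by
    field_simp
    ring
  induction n with
  | zero => rfl
  | succ n ih =>
    ext x
    have hout : ∀ y, y ∉ Icc 0 (1 / (β - 1)) → f β n y = 0 := by
      intro y hy
      cases n with
      | zero =>
        simp only [f]
        exact indicator_of_notMem hy _
      | succ n =>
        simp only [f]
        exact indicator_of_notMem hy _
    show (Icc 0 (1 / (β - 1))).indicator (fun x => β / 2 * (f β n (β * x) + f β n (β * x - 1))) x = _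
    have e : Pool.Agent.D0H98.BC.It β ((Icc 0 (1 / (β - 1))).indicator (fun _ => β - 1)) (n + 1) x =
        β / 2 * (f β n (β * x) + f β n (β * x - 1)) := by
      simp only [Pool.Agent.D0H98.BC.It, Pool.Agent.D0H98.BC.T]
      rw [← ih]
      rfl
    rw [e]
    by_cases hx : x ∈ Icc 0 (1 / (β - 1))
    · rw [indicator_of_mem hx]
    · rw [indicator_of_notMem hx]
      have h1 : β * x ∉ Icc 0 (1 / (β - 1)) := by
        intro h
        apply hx
        obtain ⟨h2, h3⟩ := h
        constructor
        · by_contra hcon
          push Not at hcon
          nlinarith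
        · by_contra hcon
          push Not at hcon
          nlinarith
      have h2 : β * x - 1 ∉ Icc 0 (1 / (β - 1)) := by
        intro h
        apply hx
        obtain ⟨h2, h3⟩ := h
        constructor
        · by_contra hcon
          push Not at hcon
          nlinarith
        · by_contra hcon
          push Not at hcon
          have : β * (1 / (β - 1)) < β * x := by
            apply mul_lt_mul_of_pos_left hcon
            linarith
          linarith
      rw [hout _ h1, hout _ h2]
      ring

/-- **If the Bernoulli convolution `ν_β`, `1 < β < 2`, is absolutely continuous, then `f_n(x)` tends to the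
density of `ν_β` at `x` for Lebesgue almost every `x`.** -/
theorem result (β : ℝ) (hβ : 1 < β) (hβ2 : β < 2) (hac : bernoulliConv β ≪ volume) :
    ∀ᵐ x ∂(volume : Measure ℝ), Tendsto (fun n => f β n x) atTop
      (𝓝 ((bernoulliConv β).rnDeriv volume x).toReal) := by
  have h : bernoulliConv β = Pool.Agent.D0H98.BC.bernoulliConv β := rfl
  rw [h] at hac ⊢
  filter_upwards [Pool.Agent.D0H98.BC.main hβ hβ2 hac] with x hx
  refine hx.congr fun n => ?_
  rw [f_eq hβ]

end Pool.Agent.Results.MP_ddcbd8_an.AbsolutelyContinuousDensities
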